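import Pool.Agent.helper62.VD.SpecE

set_option autoImplicit false

open MeasureTheory Filter Set Topology
open scoped ENNReal

namespace Pool.Agent.VDE

/-- comparison of time averages -/
lemma EMX_av {S : Type} [TopologicalSpace S] (f : ℝ → S → S) (h : S → ℝ)
    (hf : Continuous (fun p : ℝ × S => f p.1 p.2)) (hh : Continuous h) (T η : ℝ) (hT : 0 < T) (x w : S)
    (hd : ∀ s ∈ Icc (0 : ℝ) T, |h (f s x) - h (f s w)| ≤ η) : |av f h T x - av f h T w| ≤ η := by
  have hcx : ∀ u : S, Continuous (fun s : ℝ => h (f s u)) := fun u =>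
    hh.comp (hf.comp (continuous_id.prodMk continuous_const))
  unfold av
  rw [← mul_sub, ← intervalIntegral.integral_sub ((hcx x).intervalIntegrable 0 T) ((hcx w).intervalIntegrable 0 T), abs_mul, abs_of_pos (inv_pos.mpr hT)]
  have h1 : |∫ s in (0 : ℝ)..T, (h (f s x) - h (f s w))| ≤ η * |T - 0| := by
    have h2 := intervalIntegral.norm_integral_le_of_norm_le_const (a := (0 : ℝ)) (b := T) (C := η) (f := fun s : ℝ => h (f s x) - h (f s w)) (by
      intro s hs
      rw [uIoc_of_le hT.le] at hs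
      rw [Real.norm_eq_abs]
      exact hd s ⟨hs.1.le, hs.2⟩)
    rwa [Real.norm_eq_abs] at h2
  rw [sub_zero, abs_of_pos hT] at h1
  calc T⁻¹ * |∫ s in (0 : ℝ)..T, (h (f s x) - h (f s w))| ≤ T⁻¹ * (η * T) :=
        mul_le_mul_of_nonneg_left h1 (inv_pos.mpr hT).le
    _ = η := by field_simp

/-- invariance of time averages -/
lemma EMX_inv {Γ S : Type} [Group Γ] [MulAction Γ S] (f : ℝ → S → S) (h : S → ℝ)
    (fe : ∀ (γ : Γ) (t : ℝ) (x : S), f t (γ • x) = γ • f t x) (hi : ∀ (γ : Γ) (x : S), h (γ • x) = h x)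
    (T : ℝ) (γ : Γ) (x : S) : av f h T (γ • x) = av f h T x := by
  unfold av
  simp only [fe, hi]

/-- splitting a sum over a countable type by the value of an index -/
lemma EMX_split {P : Type} (g : P → ℝ≥0∞) (κ : P → ℕ) (M : ℕ) (hκ : ∀ p, κ p ≤ M) :
    ∑' p, g p = ∑ k ∈ Finset.range (M + 1), ∑' p : {p : P // κ p = k}, g p := by
  have h1 : ∀ p, g p = ∑ k ∈ Finset.range (M + 1), ({p : P | κ p = k} : Set P).indicator g p := by
    intro p
    have h2 : ∀ k : ℕ, ({p : P | κ p = k} : Set P).indicator g p = if k = κ p then g p else 0 := by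
      intro k
      by_cases hk : κ p = k
      · rw [Set.indicator_of_mem (show p ∈ {p : P | κ p = k} from hk), if_pos hk.symm]
      · rw [Set.indicator_of_notMem (show p ∉ {p : P | κ p = k} from hk), if_neg (fun e => hk e.symm)]
    simp only [h2]
    rw [Finset.sum_ite_eq' (Finset.range (M + 1)) (κ p) (fun _ => g p), if_pos (Finset.mem_range.mpr (Nat.lt_succ_of_le (hκ p)))]
  calc ∑' p, g p = ∑' p, ∑ k ∈ Finset.range (M + 1), ({p : P | κ p = k} : Set P).indicator g p := tsum_congr h1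
    _ = ∑ k ∈ Finset.range (M + 1), ∑' p, ({p : P | κ p = k} : Set P).indicator g p :=
        Summable.tsum_finsetSum (fun k _ => ENNReal.summable)
    _ = ∑ k ∈ Finset.range (M + 1), ∑' p : {p : P // κ p = k}, g p := by
        refine Finset.sum_congr rfl (fun k _ => ?_)
        exact (tsum_subtype ({p : P | κ p = k} : Set P) g).symm

/-- the product of two sums -/
lemma EMX_prod {X Y : Type} (a : X → ℝ≥0∞) (b : Y → ℝ≥0∞) (c : ℝ≥0∞) :
    c * ((∑' x, a x) * ∑' y, b y) = ∑' p : X × Y, c * (a p.1 * b p.2) := by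
  rw [ENNReal.tsum_mul_left]
  congr 1
  rw [ENNReal.tsum_prod', ← ENNReal.tsum_mul_right]
  refine tsum_congr (fun x => ?_)
  exact ENNReal.tsum_mul_left.symm

theorem EMX_proof (h1 : EUC_stmt) (h2 : ESP_stmt) (h3 : ECV_stmt) (h4 : EDJ_stmt) : EMX_stmt := by
  intro Γ S _ _ _ _ _ _ μ F0 K d f ε0 hB hε0 hGV hGG h η hTH hη
  obtain ⟨u1, u2, u3, u4, u5, u6, u7⟩ := h1 Γ S μ F0 K d f hB
  obtain ⟨ε1, hε1, hh⟩ := u1 h hTH η hη
  obtain ⟨ε, hε, hεa, hεb, hεc⟩ : ∃ ε : ℝ, 0 < ε ∧ ε ≤ ε0 / 4 ∧ ε ≤ 1 / 4 ∧ ε ≤ ε1 :=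
    ⟨min (min (ε0 / 4) (1 / 4)) ε1, lt_min (lt_min (by linarith) (by norm_num)) hε1,
      (min_le_left _ _).trans (min_le_left _ _), (min_le_left _ _).trans (min_le_right _ _), min_le_right _ _⟩
  obtain ⟨N, hN, hG⟩ := hGG (ε / 16) (by linarith)
  obtain ⟨δ1, hδ1, hdl⟩ := u3 (ε / 16) (by linarith)
  obtain ⟨cN, hcN, hcN'⟩ := u4 N (2 * ε) (by linarith)
  obtain ⟨c2, hc2, hc2'⟩ := hGV (ε / 16) (2 * ε) (by linarith) (by linarith) (by linarith)
  obtain ⟨c3, hc3, hc3'⟩ := hGV (2 * ε) (2 * ε) (by linarith) le_rfl (by linarith)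
  obtain ⟨n0, hn0, hDJ⟩ := h4 Γ S μ F0 K d f hB
  set M : ℕ := ⌊N / δ1⌋₊ with hM
  have hc1 : 0 < c2 * (cN * c3) := by positivity
  refine ⟨(M + 1) * n0 / (c2 * (cN * c3)), N, by positivity, hN, ?_⟩
  intro c T U hT hU
  obtain ⟨E, hEA, hEc, hEs, hEcov⟩ := h2 Γ S μ F0 K d f hB T ε {x | c + 2 * η ≤ av f h T x} hε
  obtain ⟨F, hFB, hFc, hFs, hFcov⟩ := h2 Γ S μ F0 K d f hB U ε {x | av f h U x ≤ c - 2 * η} hε
  have hA := h3 Γ S μ F0 K d f hB T ε _ E hEc hEcov
  have hB' := h3 Γ S μ F0 K d f hB U ε _ F hFc hFcov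
  choose g z t ht0 htN hx hy using fun p : E × F => hG (p.1 : S) (p.2 : S) T U hT.le hU.le
  have hac : ∀ (s r : ℝ) (x : S), f s (f r x) = f (s + r) x := fun s r x => (hB.fa s r x).symm
  -- the index
  set κ : E × F → ℕ := fun p => ⌊t p / δ1⌋₊ with hκ
  have hκM : ∀ p, κ p ≤ M := fun p => Nat.floor_le_floor (div_le_div_of_nonneg_right (htN p) hδ1.le)
  have hκ1 : ∀ p, (κ p : ℝ) * δ1 ≤ t p := by
    intro p
    have := Nat.floor_le (div_nonneg (ht0 p) hδ1.le)
    calc (κ p : ℝ) * δ1 ≤ t p / δ1 * δ1 := mul_le_mul_of_nonneg_right this hδ1.le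
      _ = t p := div_mul_cancel₀ _ hδ1.ne'
  have hκ2 : ∀ p, t p - (κ p : ℝ) * δ1 ≤ δ1 := by
    intro p
    have := (Nat.lt_floor_add_one (t p / δ1)).le
    have h5 : t p ≤ ((κ p : ℝ) + 1) * δ1 := by
      calc t p = t p / δ1 * δ1 := (div_mul_cancel₀ _ hδ1.ne').symm
        _ ≤ ((κ p : ℝ) + 1) * δ1 := mul_le_mul_of_nonneg_right this hδ1.le
    linarith
  -- the sets
  set Z : E × F → Set S := fun p => BB d f (T + t p + U) (z p) (ε / 16) with hZ
  set V : ℕ → Set S := fun k => {w | c + η ≤ av f h T w ∧ av f h U (f (T + (k : ℝ) * δ1) w) ≤ c - η} with hV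
  -- closeness
  have hZx : ∀ p, ∀ w ∈ Z p, ∀ s ∈ Icc (0 : ℝ) T, d (f s (p.1 : S)) (f s w) ≤ ε / 8 := by
    intro p w hw s hs
    have e1 := hx p s hs
    have e2 := hw s ⟨hs.1, by have := ht0 p; linarith [hs.2]⟩
    have e3 := hB.dt (f s (p.1 : S)) (f s (z p)) (f s w)
    linarith
  have hZy : ∀ p, ∀ w ∈ Z p, ∀ s ∈ Icc (0 : ℝ) U, d (g p • f s (p.2 : S)) (f (s + (T + (κ p : ℝ) * δ1)) w) ≤ 3 * (ε / 16) := by
    intro p w hw s hs
    have e1 := hy p s hs
    have e2 := hw (T + t p + s) ⟨by have := ht0 p; linarith [hs.1], by linarith [hs.2]⟩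
    have e3 := hB.dt (g p • f s (p.2 : S)) (f (T + t p + s) (z p)) (f (s + (T + (κ p : ℝ) * δ1)) w)
    have e4 := hB.dt (f (T + t p + s) (z p)) (f (T + t p + s) w) (f (s + (T + (κ p : ℝ) * δ1)) w)
    have e5 : d (f (T + t p + s) w) (f (s + (T + (κ p : ℝ) * δ1)) w) ≤ ε / 16 := by
      have e6 := hdl (f (s + (T + (κ p : ℝ) * δ1)) w) (t p - (κ p : ℝ) * δ1) (by
        rw [abs_of_nonneg (by linarith [hκ1 p])]
        exact hκ2 p)
      rw [hac, hB.ds] at e6
      have e7 : t p - (κ p : ℝ) * δ1 + (s + (T + (κ p : ℝ) * δ1)) = T + t p + s := by ring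
      rwa [e7] at e6
    linarith
  -- Z is in V
  have hZV : ∀ p, Z p ⊆ V (κ p) := by
    intro p w hw
    refine ⟨?_, ?_⟩
    · have e1 := EMX_av f h hB.fcn hTH.cont T η hT (p.1 : S) w (fun s hs => hh _ _ ((hZx p w hw s hs).trans (by linarith)))
      have e2 : c + 2 * η ≤ av f h T (p.1 : S) := hEA p.1.2
      have e3 := (abs_le.mp e1).2
      linarith
    · have e1 := EMX_av f h hB.fcn hTH.cont U η hU (p.2 : S) (f (T + (κ p : ℝ) * δ1) w) (fun s hs => by
        rw [hac, ← hTH.inv (g p) (f s (p.2 : S))]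
        exact hh _ _ ((hZy p w hw s hs).trans (by linarith)))
      have e2 : av f h U (p.2 : S) ≤ c - 2 * η := hFB p.2.2
      have e3 := (abs_le.mp e1).1
      linarith
  -- the disjoint sum
  have hsum : ∀ k : ℕ, ∑' p : {p : E × F // κ p = k}, μ (Z p) ≤ n0 * μ (F0 ∩ V k) := by
    intro k
    have hcE : Countable E := hEc.to_subtype
    have hcF : Countable F := hFc.to_subtype
    refine hDJ {p : E × F // κ p = k} (fun p => Z p) (V k) (fun p => (u5 _ _ _).measurableSet) ?_ ?_ ?_ ?_ ?_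
    · intro p w hw w' hw'
      have e1 := hw 0 ⟨le_rfl, by have := ht0 p; linarith⟩
      have e2 := hw' 0 ⟨le_rfl, by have := ht0 p; linarith⟩
      rw [hB.f0, hB.f0] at e1 e2
      have e3 := hB.dt w (z p) w'
      rw [hB.ds] at e1
      linarith
    · intro p q hpq γ w hw hw'
      apply hpq
      apply Subtype.ext
      apply Prod.ext
      · by_contra hne
        have hne' : ((q : E × F).1 : S) ≠ ((p : E × F).1 : S) := fun e => hne (Subtype.ext e.symm)
        obtain ⟨s, hs, hlt⟩ := hEs _ (q : E × F).1.2 _ (p : E × F).1.2 hne' γ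
        have e1 := hZx p w hw s hs
        have e2 := hZx q (γ • w) hw' s hs
        rw [hB.fe] at e2
        have e3 := hB.dt (f s ((q : E × F).1 : S)) (γ • f s w) (γ • f s ((p : E × F).1 : S))
        rw [hB.di γ (f s w), hB.ds (f s w)] at e3
        linarith
      · by_contra hne
        have hne' : ((q : E × F).2 : S) ≠ ((p : E × F).2 : S) := fun e => hne (Subtype.ext e.symm)
        obtain ⟨s, hs, hlt⟩ := hFs _ (q : E × F).2.2 _ (p : E × F).2.2 hne' ((g q)⁻¹ * γ * g p)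
        have e1 := hZy p w hw s hs
        have e2 := hZy q (γ • w) hw' s hs
        rw [hB.fe] at e2
        rw [p.2] at e1
        rw [q.2] at e2
        have e3 := hB.dt (g q • f s ((q : E × F).2 : S)) (γ • f (s + (T + (k : ℝ) * δ1)) w) (γ • g p • f s ((p : E × F).2 : S))
        rw [hB.di γ (f (s + (T + (k : ℝ) * δ1)) w), hB.ds (f (s + (T + (k : ℝ) * δ1)) w)] at e3
        have e4 : d (g q • f s ((q : E × F).2 : S)) (γ • g p • f s ((p : E × F).2 : S)) = d (f s ((q : E × F).2 : S)) (((g q)⁻¹ * γ * g p) • f s ((p : E × F).2 : S)) := by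
          rw [← hB.di (g q) (f s ((q : E × F).2 : S))]
          congr 1
          rw [smul_smul, smul_smul]
          congr 1
          group
        rw [e4] at e3
        linarith
    · refine MeasurableSet.inter (measurableSet_le measurable_const (u7 h T hTH).measurable) ?_
      have hc : Continuous (fun w => av f h U (f (T + (k : ℝ) * δ1) w)) :=
        (u7 h U hTH).comp (hB.fcn.comp (continuous_const.prodMk continuous_id))
      exact measurableSet_le hc.measurable measurable_const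
    · intro γ x
      show (c + η ≤ av f h T (γ • x) ∧ av f h U (f (T + (k : ℝ) * δ1) (γ • x)) ≤ c - η) ↔ (c + η ≤ av f h T x ∧ av f h U (f (T + (k : ℝ) * δ1) x) ≤ c - η)
      rw [hB.fe, EMX_inv f h hB.fe hTH.inv, EMX_inv f h hB.fe hTH.inv]
    · intro p
      have := hZV p
      rwa [p.2] at this
  -- the volume
  have hvol : ∀ p : E × F, ENNReal.ofReal (c2 * (cN * c3)) * (μ (BB d f T (p.1 : S) ε) * μ (BB d f U (p.2 : S) ε)) ≤ μ (Z p) := by
    intro p
    have s1 : μ (BB d f T (p.1 : S) ε) ≤ μ (BB d f T (z p) (2 * ε)) := by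
      apply measure_mono
      intro w hw s hs
      have e1 := hw s hs
      have e2 := hx p s hs
      rw [hB.ds] at e2
      have e3 := hB.dt (f s (z p)) (f s (p.1 : S)) (f s w)
      linarith
    have s2 : μ (BB d f U (p.2 : S) ε) ≤ μ (BB d f U (f (t p) (f T (z p))) (2 * ε)) := by
      rw [← u6 (g p) (p.2 : S) U ε]
      apply measure_mono
      intro w hw s hs
      have e1 := hw s hs
      rw [hB.fe] at e1
      have e2 := hy p s hs
      rw [hB.ds] at e2
      rw [hac, hac]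
      have e4 : s + t p + T = T + t p + s := by ring
      rw [e4]
      have e3 := hB.dt (f (T + t p + s) (z p)) (g p • f s (p.2 : S)) (f s w)
      linarith
    have s3 := hcN' (f T (z p)) (t p) (htN p)
    have s4 := hc3' (f T (z p)) (t p) U (ht0 p) hU.le
    have s5 := hc2' (z p) T (t p + U) hT.le (by have := ht0 p; linarith)
    have s6 : T + (t p + U) = T + t p + U := by ring
    rw [s6] at s5
    calc ENNReal.ofReal (c2 * (cN * c3)) * (μ (BB d f T (p.1 : S) ε) * μ (BB d f U (p.2 : S) ε))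
        = ENNReal.ofReal c2 * (μ (BB d f T (p.1 : S) ε) * (ENNReal.ofReal c3 * (ENNReal.ofReal cN * μ (BB d f U (p.2 : S) ε)))) := by
          rw [ENNReal.ofReal_mul hc2.le, ENNReal.ofReal_mul hcN.le]; ring
      _ ≤ ENNReal.ofReal c2 * (μ (BB d f T (z p) (2 * ε)) * (ENNReal.ofReal c3 * (μ (BB d f (t p) (f T (z p)) (2 * ε)) * μ (BB d f U (f (t p) (f T (z p))) (2 * ε))))) := by
          gcongr
      _ ≤ ENNReal.ofReal c2 * (μ (BB d f T (z p) (2 * ε)) * μ (BB d f (t p + U) (f T (z p)) (2 * ε))) := by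
          gcongr
      _ ≤ μ (Z p) := s5
  -- the largest term
  obtain ⟨k, hk, hmax⟩ := Finset.exists_max_image (Finset.range (M + 1)) (fun k => μ (F0 ∩ V k)) ⟨0, Finset.mem_range.mpr (Nat.succ_pos M)⟩
  refine ⟨(k : ℝ) * δ1, by positivity, ?_, ?_⟩
  · have e1 : (k : ℝ) ≤ N / δ1 := by
      have e2 : (k : ℝ) ≤ (M : ℝ) := by exact_mod_cast Nat.lt_succ_iff.mp (Finset.mem_range.mp hk)
      exact e2.trans (Nat.floor_le (div_nonneg hN hδ1.le))
    calc (k : ℝ) * δ1 ≤ N / δ1 * δ1 := mul_le_mul_of_nonneg_right e1 hδ1.le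
      _ = N := div_mul_cancel₀ _ hδ1.ne'
  · have key : ENNReal.ofReal (c2 * (cN * c3)) * (μ (F0 ∩ {x | c + 2 * η ≤ av f h T x}) * μ (F0 ∩ {x | av f h U x ≤ c - 2 * η})) ≤ ((M : ℝ≥0∞) + 1) * (n0 * μ (F0 ∩ V k)) := by
      calc ENNReal.ofReal (c2 * (cN * c3)) * (μ (F0 ∩ {x | c + 2 * η ≤ av f h T x}) * μ (F0 ∩ {x | av f h U x ≤ c - 2 * η}))
          ≤ ENNReal.ofReal (c2 * (cN * c3)) * ((∑' x : E, μ (BB d f T x ε)) * ∑' y : F, μ (BB d f U y ε)) := by gcongr
        _ = ∑' p : E × F, ENNReal.ofReal (c2 * (cN * c3)) * (μ (BB d f T (p.1 : S) ε) * μ (BB d f U (p.2 : S) ε)) := EMX_prod _ _ _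
        _ ≤ ∑' p : E × F, μ (Z p) := ENNReal.tsum_le_tsum hvol
        _ = ∑ k ∈ Finset.range (M + 1), ∑' p : {p : E × F // κ p = k}, μ (Z p) := EMX_split _ κ M hκM
        _ ≤ ∑ j ∈ Finset.range (M + 1), (n0 * μ (F0 ∩ V k) : ℝ≥0∞) := by
            refine Finset.sum_le_sum (fun j hj => (hsum j).trans ?_)
            have := hmax j hj
            gcongr
        _ = ((M : ℝ≥0∞) + 1) * (n0 * μ (F0 ∩ V k)) := by
            rw [Finset.sum_const, Finset.card_range, nsmul_eq_mul]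
            push_cast
            ring
    have hne : ENNReal.ofReal (c2 * (cN * c3)) ≠ 0 := by
      rw [Ne, ENNReal.ofReal_eq_zero, not_le]; exact hc1
    have e1 : μ (F0 ∩ {x | c + 2 * η ≤ av f h T x}) * μ (F0 ∩ {x | av f h U x ≤ c - 2 * η}) ≤ (((M : ℝ≥0∞) + 1) * (n0 * μ (F0 ∩ V k))) / ENNReal.ofReal (c2 * (cN * c3)) := by
      rw [ENNReal.le_div_iff_mul_le (Or.inl hne) (Or.inl ENNReal.ofReal_ne_top), mul_comm]
      exact key
    refine e1.trans (le_of_eq ?_)
    have e2 : ENNReal.ofReal (((M : ℝ) + 1) * (n0 : ℝ)) = ((M : ℝ≥0∞) + 1) * (n0 : ℝ≥0∞) := by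
      rw [ENNReal.ofReal_mul (by positivity), ENNReal.ofReal_add (by positivity) zero_le_one, ENNReal.ofReal_natCast, ENNReal.ofReal_natCast, ENNReal.ofReal_one]
    rw [ENNReal.ofReal_div_of_pos hc1, e2, ENNReal.div_eq_inv_mul, ENNReal.div_eq_inv_mul, hV]
    ring

end Pool.Agent.VDE
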